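import Pool.Agent.Lib.MP_04668c_co.E.Base

/-!
# SYS: the system of bodies
-/

set_option autoImplicit false

namespace Pool.Agent.Lib.MP_04668c_co.E.H64

open Finset Classical
open Pool.Agent.Lib.MP_04668c_co
open Pool.Agent.Lib.MP_04668c_co.E

theorem pairs_del {V : Type} [Fintype V] (G : SimpleGraph V) (S Q : Finset V) :
    (pairs (del G S) Q).card ≤ (pairs G Q).card := by
  refine Finset.card_le_card (fun p hp => ?_)
  rw [mem_pairs] at hp ⊢
  exact ⟨hp.1, hp.2.1, hp.2.2.1⟩

theorem deg4_del {V : Type} [Fintype V] (G : SimpleGraph V) (S : Finset V) (h : Deg4 G) :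
    Deg4 (del G S) := by
  intro v
  refine le_trans (Finset.card_le_card (fun u hu => ?_)) (h v)
  rw [mem_filter] at hu ⊢
  exact ⟨hu.1, hu.2.1⟩

/-- SYS. -/
theorem sys (h1 : ExpnStatement) (h2 : RcovStatement) (h3 : EdgesStatement) : SysStatement := by
  intro V _ G S n₀ L hn hL hV h4 hE hS
  obtain ⟨e1, e2⟩ := h1 V G n₀ hn h4 hE
  have hle : ∀ Q : Finset V, n₀ * (pairs (del G S) Q).card ≤ n₀ * (pairs G Q).card :=
    fun Q => Nat.mul_le_mul_left _ (pairs_del G S Q)
  obtain ⟨𝓑, b1, b2, b3, b4, b5⟩ := h2 V (del G S) n₀ L hn hL hV (deg4_del G S h4)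
    (fun Q hQ => by have := e1 Q hQ; have := hle Q; omega)
  set B : {A : Finset V // A ∈ 𝓑} → Finset V := Subtype.val with hB
  -- passing from sets of bodies to families of sets
  have himg : ∀ K : Finset {A : Finset V // A ∈ 𝓑},
      (K.image B) ⊆ 𝓑 ∧ (K.image B).card = K.card ∧ (K.image B).biUnion id = vs B K ∧
        ∑ A ∈ K.image B, (2 * A.card - 3) = Rk B K := by
    intro K
    refine ⟨?_, ?_, ?_, ?_⟩
    · intro A hA
      obtain ⟨x, _, rfl⟩ := mem_image.mp hA
      exact x.2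
    · exact Finset.card_image_of_injective _ Subtype.val_injective
    · unfold vs
      rw [Finset.image_biUnion]
      rfl
    · unfold Rk
      rw [Finset.sum_image (fun x _ y _ h => Subtype.val_injective h)]
  have havoid : ∀ x, Disjoint (B x) S := by
    intro x
    rw [Finset.disjoint_left]
    intro v hv hvS
    obtain ⟨u, _, hu⟩ := (b1 x.1 x.2).2.2.2 v hv
    exact hu.2.1 hvS
  have hsmall : ∀ K : Finset {A : Finset V // A ∈ 𝓑}, K.Nonempty →
      2 * (vs B K).card ≤ Fintype.card V →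
      L * Rk B K + K.card ≤ L * (2 * (vs B K).card - 3) + 1 := by
    intro K hK hc
    obtain ⟨i1, i2, i3, i4⟩ := himg K
    have := b5 (K.image B) i1 (hK.image _) (by rw [i3]; exact hc)
    rwa [i2, i3, i4] at this
  have hlarge : ∀ Q : Finset V, Fintype.card V < 2 * Q.card →
      2 * n₀ * Rk B (KQ B Q) + Qᶜ.card ≤ 4 * n₀ * Q.card := by
    intro Q hQ
    obtain ⟨i1, _, _, i4⟩ := himg (KQ B Q)
    have hE := h3 V (del G S) ((KQ B Q).image B) Q
      (fun A hA => by
        obtain ⟨x, hx, rfl⟩ := mem_image.mp hA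
        have hx' : B x ⊆ Q := (mem_filter.mp hx).2
        exact ⟨(b1 x.1 x.2).1, hx', (b1 x.1 x.2).2.2.1⟩)
      (fun A hA A' hA' hne => b4 A (i1 hA) A' (i1 hA') hne)
    rw [i4] at hE
    have h5 := Nat.mul_le_mul_left n₀ (hE.trans (pairs_del G S Q))
    have h6 := e2 Q hQ
    have h7 : 2 * n₀ * Rk B (KQ B Q) = n₀ * (2 * Rk B (KQ B Q)) := by ring
    omega
  refine ⟨{A : Finset V // A ∈ 𝓑}, inferInstance, B, ?_⟩
  refine ⟨fun x => (b1 x.1 x.2).1, fun x => (b1 x.1 x.2).2.1, ?_, havoid, hS, ?_, ?_, hsmall,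
    hlarge⟩
  · intro v
    refine le_trans (le_of_eq ?_) (b3 v)
    rw [← Finset.card_image_of_injective (univ.filter (fun x => v ∈ B x))
      (Subtype.val_injective (p := fun A => A ∈ 𝓑))]
    congr 1
    ext A
    rw [mem_image, mem_filter]
    constructor
    · rintro ⟨x, hx, rfl⟩
      exact ⟨x.2, (mem_filter.mp hx).2⟩
    · rintro ⟨hA, hv⟩
      exact ⟨⟨A, hA⟩, mem_filter.mpr ⟨mem_univ _, hv⟩, rfl⟩
  · intro u v huv hu hv
    obtain ⟨A, hA, huA, hvA⟩ := b2 u v ⟨huv, hu, hv⟩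
    exact ⟨⟨A, hA⟩, huA, hvA⟩
  · intro K hK
    obtain ⟨x, hx⟩ := id hK
    have hWx : B x ⊆ vs B K := Finset.subset_biUnion_of_mem B hx
    have h2W : 2 ≤ (vs B K).card := le_trans (b1 x.1 x.2).1 (Finset.card_le_card hWx)
    have hKc : 1 ≤ K.card := hK.card_pos
    by_cases hc : 2 * (vs B K).card ≤ Fintype.card V
    · have h5 := hsmall K hK hc
      have h6 : L * Rk B K ≤ L * (2 * (vs B K).card - 3) := by omega
      have h7 : Rk B K ≤ 2 * (vs B K).card - 3 :=
        Nat.le_of_mul_le_mul_left h6 (by omega)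
      omega
    · have h5 := hlarge (vs B K) (by omega)
      have h6 : Rk B K ≤ Rk B (KQ B (vs B K)) := by
        unfold Rk
        refine Finset.sum_le_sum_of_subset (fun y hy => ?_)
        exact mem_filter.mpr ⟨mem_univ _, Finset.subset_biUnion_of_mem B hy⟩
      have h7 : 12 * n₀ ≤ (vs B K)ᶜ.card := by
        rw [← hS]
        refine Finset.card_le_card (fun v hv => ?_)
        rw [mem_compl]
        intro hvW
        obtain ⟨y, _, hy⟩ := mem_biUnion.mp hvW
        exact Finset.disjoint_left.mp (havoid y) hy hv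
      have h8 := Nat.mul_le_mul_left (2 * n₀) h6
      have h9 : 2 * n₀ * (Rk B K + 6) ≤ 2 * n₀ * (2 * (vs B K).card) := by
        have e1 : 2 * n₀ * (Rk B K + 6) = 2 * n₀ * Rk B K + 12 * n₀ := by ring
        have e2 : 2 * n₀ * (2 * (vs B K).card) = 4 * n₀ * (vs B K).card := by ring
        omega
      have h10 := Nat.le_of_mul_le_mul_left h9 (by omega)
      omega

end Pool.Agent.Lib.MP_04668c_co.E.H64
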